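import Mathlib
import Pool.Agent.K1H94.Q.Top

/-!
# The Fermat-Catalan equation with one given base: the number of all solutions in which another term
has a small part prime to `S`

Let `0 < κ ≤ 1` and `s` be given. There are `Z` and `K`, depending only on `κ` and `s`, such that for
every integer `a ≥ 1` and every set `S` of at most `s` primes, all at most `R` (`R ≥ 2`), there are at
most `(R log (a + 1)) ^ K` value triples `(A, B, C)`, `A + B = C`, of pairwise coprime powers
`a ^ m`, `b ^ n`, `c ^ k` (in some order) with the given base `a` and with `k ≥ Z` for which the part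
of `b ^ n` prime to `S` is at most `C ^ (1 - κ)`. The bases `b` and `c` and the three exponents are
otherwise free; nothing is assumed about the size of `b` and `c`.

Two special cases:
* (`b` rich in primes of `S`) the `S`-part of `b` is at least `b ^ κ`, for instance `b = p ^ v`;
* (`S` empty, `R = 2`) the term `b ^ n` is at most `C ^ (1 - κ)`: for instance at most
  `(2 log (a + 1)) ^ K` perfect powers `c ^ k`, `k ≥ Z`, prime to `a`, are at a distance
  `0 < |a ^ m - c ^ k| ≤ a ^ ((1 - κ) m)` from some power `a ^ m` of `a`.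

Proof. The exponent `k` of `c` has a prime power divisor `q ≥ q₀` which is bounded or prime, and in the
second case linear forms in two logarithms (at a prime of `S` and over the reals) bound `q` by a
polynomial in `R log (a + 1)`. Write `c ^ k = U ^ q`, `a ^ m = a ^ i V ^ q`. Then `U / V` is a very good
approximation of a `q`-th root of `± a ^ i`, either `p`-adic for a prime `p` of `S` or real, and for
given `q`, `i`, sign, `p` and residue classes of `U`, `V` modulo `p ^ 2` Hermite-Padé approximations show
that there is at most one such approximation of large height.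
-/

set_option autoImplicit false

namespace Pool.Agent.Results.MP_2738db_nt.GivenBaseCount

/-- The largest divisor of `b` all of whose prime factors are in `S`. -/
def sPart (S : Finset ℕ) (b : ℕ) : ℕ := ∏ p ∈ S, p ^ b.factorization p

/-- The value triples `v = (A, B, C)`, `A + B = C`, which consist, in some order, of powers `a ^ m`,
`b ^ n`, `c ^ k` of pairwise coprime positive integers with `m, n ≥ 1`, `k ≥ Z`, where `a` is given
and the part of `b ^ n` prime to `S` is at most `C ^ (1 - κ)`. -/
def Triples (κ : ℝ) (Z a : ℕ) (S : Finset ℕ) : Set (ℕ × ℕ × ℕ) :=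
  {v | v.1 + v.2.1 = v.2.2 ∧ ∃ b c m n k : ℕ, 1 ≤ b ∧ 1 ≤ c ∧ 1 ≤ m ∧ 1 ≤ n ∧ Z ≤ k ∧
    Nat.Coprime a b ∧ Nat.Coprime a c ∧ Nat.Coprime b c ∧
    ((b ^ n : ℕ) : ℝ) ≤ (sPart S (b ^ n) : ℝ) * (v.2.2 : ℝ) ^ (1 - κ) ∧
    ({v.1, v.2.1, v.2.2} : Multiset ℕ) = {a ^ m, b ^ n, c ^ k}}

theorem result (κ : ℝ) (hκ0 : 0 < κ) (hκ1 : κ ≤ 1) (s : ℕ) : ∃ Z K : ℕ,
    ∀ (a R : ℕ) (S : Finset ℕ), 1 ≤ a → 2 ≤ R → (∀ p ∈ S, p.Prime ∧ p ≤ R) → S.card ≤ s →
    (Triples κ Z a S).Finite ∧
      ((Triples κ Z a S).ncard : ℝ) ≤ ((R : ℝ) * Real.log (a + 1)) ^ K :=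
  Pool.Agent.K1H94.Q.top_main κ hκ0 hκ1 s

end Pool.Agent.Results.MP_2738db_nt.GivenBaseCount
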