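import Mathlib
import Pool.Agent.K1H94.Q.Top

/-!
# The Fermat-Catalan equation with one given base and a term with a small part prime to `S`:
finiteness

Let a base `a ≥ 1`, a finite set `S` of primes and `0 < κ ≤ 1` be given. Only finitely many value
triples `(A, B, C)`, `A + B = C`, consist of pairwise coprime powers `a ^ m`, `b ^ n`, `c ^ k` (in some
order) such that the part of `b ^ n` prime to `S` is at most `C ^ (1 - κ)` and `k > 1 / κ`. The bases
`b`, `c` and all three exponents are otherwise free and unbounded.

* The condition on `b ^ n` holds if the `S`-part of `b` is at least `b ^ κ`; so the theorem covers all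
  solutions with a given base `a`, a base `b` which is rich in primes of `S`, and `k > 1 / κ`. For
  `κ > 1 / 2` the condition on `k` is `k ≥ 2`, so that all solutions of the Fermat-Catalan equation
  with such bases `a`, `b` are covered, whatever their exponents are.
* For an empty `S`: only finitely many perfect powers `c ^ k` prime to `a` with `k > 1 / κ` are at a
  distance `0 < |a ^ m - c ^ k| ≤ a ^ ((1 - κ) m)` from a power of `a`.

Proof. Linear forms in two logarithms and Hermite-Padé approximations, see `GivenBaseCount`, leave only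
finitely many solutions with a large exponent `k`. For each remaining `k` write `a ^ m = a ^ i V ^ k`,
`i < k`, and apply the theorem of Ridout (from the subspace theorem of the library) to the binary form
`V (c ^ k ± a ^ i V ^ k)` of degree `k + 1`, in which `V` is composed of primes of `a`.
-/

set_option autoImplicit false

namespace Pool.Agent.Results.MP_2738db_nt.GivenBaseFinite

/-- The largest divisor of `b` all of whose prime factors are in `S`. -/
def sPart (S : Finset ℕ) (b : ℕ) : ℕ := ∏ p ∈ S, p ^ b.factorization p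

/-- The value triples `v = (A, B, C)`, `A + B = C`, which consist, in some order, of powers `a ^ m`,
`b ^ n`, `c ^ k` of pairwise coprime positive integers with `m, n ≥ 1`, `k > 1 / κ`, where `a` is given
and the part of `b ^ n` prime to `S` is at most `C ^ (1 - κ)`. -/
def Triples (κ : ℝ) (a : ℕ) (S : Finset ℕ) : Set (ℕ × ℕ × ℕ) :=
  {v | v.1 + v.2.1 = v.2.2 ∧ ∃ b c m n k : ℕ, 1 ≤ b ∧ 1 ≤ c ∧ 1 ≤ m ∧ 1 ≤ n ∧ 1 < κ * k ∧
    Nat.Coprime a b ∧ Nat.Coprime a c ∧ Nat.Coprime b c ∧
    ((b ^ n : ℕ) : ℝ) ≤ (sPart S (b ^ n) : ℝ) * (v.2.2 : ℝ) ^ (1 - κ) ∧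
    ({v.1, v.2.1, v.2.2} : Multiset ℕ) = {a ^ m, b ^ n, c ^ k}}

theorem result (κ : ℝ) (hκ0 : 0 < κ) (hκ1 : κ ≤ 1) (a : ℕ) (ha : 1 ≤ a) (S : Finset ℕ)
    (hS : ∀ p ∈ S, p.Prime) : (Triples κ a S).Finite :=
  Pool.Agent.K1H94.Q.top_finite κ hκ0 hκ1 a ha S hS

end Pool.Agent.Results.MP_2738db_nt.GivenBaseFinite
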