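import Mathlib
import Pool.Agent.K1H94.G.Final

/-!
# The Fermat-Catalan equation: no given base, two exponents with a common divisor, one or two bases
with a large `S`-part

Let `S` be a finite set of primes and `0 < κ ≤ 1`, `lam ≤ 1`. Only finitely many value triples come from
solutions with three pairwise coprime bases `x`, `y`, `z` and exponents `p`, `q`, `r` (in any order in
the equation) such that the `S`-part of `y` is at least `y ^ κ`, the `S`-part of `x` is at least
`x ^ lam` and `lam + κ gcd (p, r) > 2`. No base is given and no exponent is bounded.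

* `lam = 0`: there are only finitely many solutions with `κ gcd (p, r) > 2`; no condition on `x`, `z`.
  For example, of all solutions of all equations `x ^ n ± y ^ q = z ^ n` and `x ^ n + z ^ n = y ^ q` with
  `n > 2 / κ` (`n`, `q` free) only finitely many have a base `y` with `S`-part at least `y ^ κ`.
* `lam = 1`: there are only finitely many solutions in which `x` is composed of primes of `S` and
  `κ gcd (p, r) > 1`; for `κ > 1 / 2` it suffices that `p` and `r` are not coprime.

Proof. For a large `g = gcd (p, r)` the `p`-part of `X ^ g ± Z ^ g` is too small, for each prime `p` of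
`S`. For the other values of `g` the theorem of Ridout is applied to the binary form
`X (X ^ g ± Z ^ g)`.
-/

set_option autoImplicit false

namespace Pool.Agent.Results.MP_2738db_nt.SharedExponent

/-- The largest divisor of `b` all of whose prime factors are in `S`. -/
def sPart (S : Finset ℕ) (b : ℕ) : ℕ := ∏ p ∈ S, p ^ b.factorization p

/-- The value triples `v = (A, B, C)`, `A + B = C`, which consist, in some order, of powers `x ^ p`,
`y ^ q`, `z ^ r` with exponents `≥ 1` of pairwise coprime positive integers such that the `S`-part of `x`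
is at least `x ^ lam`, the `S`-part of `y` is at least `y ^ κ`, and `lam + κ gcd (p, r) > 2`. -/
def Triples (κ lam : ℝ) (S : Finset ℕ) : Set (ℕ × ℕ × ℕ) :=
  {v | v.1 + v.2.1 = v.2.2 ∧ ∃ x y z p q r : ℕ, 1 ≤ x ∧ 1 ≤ y ∧ 1 ≤ z ∧ 1 ≤ p ∧ 1 ≤ q ∧ 1 ≤ r ∧
    Nat.Coprime x y ∧ Nat.Coprime x z ∧ Nat.Coprime y z ∧
    (x : ℝ) ^ lam ≤ (sPart S x : ℝ) ∧ (y : ℝ) ^ κ ≤ (sPart S y : ℝ) ∧
    2 < lam + κ * (Nat.gcd p r : ℕ) ∧
    ({v.1, v.2.1, v.2.2} : Multiset ℕ) = {x ^ p, y ^ q, z ^ r}}

theorem result (κ lam : ℝ) (hκ0 : 0 < κ) (hκ1 : κ ≤ 1) (hl : lam ≤ 1) (S : Finset ℕ)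
    (hS : ∀ p ∈ S, p.Prime) : (Triples κ lam S).Finite :=
  Pool.Agent.K1H94.G.main κ lam hκ0 hκ1 hl S hS

end Pool.Agent.Results.MP_2738db_nt.SharedExponent
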