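import Mathlib
import Pool.Agent.Results.MP_2738db_nt.PowerSavingPairs
import Pool.Agent.K1H84.FC.Box

/-!
# The Fermat-Catalan equation at typical points of the plane

`Solves A B x y z C` says that `A ^ x + B ^ y = C ^ z` or `A ^ x + C ^ z = B ^ y` or `B ^ y + C ^ z = A ^ x` with
positive `x, y, C` and `z ≥ 2`. Let natural numbers `N n` (scales) and arbitrary points `u n` of the plane
(centres) with `|u n| ≤ N n ^ K` be given, for instance `u n = 0` and `N n = 2 ^ n`. We look at all coprime pairs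
`(A, B)` of positive integers close to `u n + N n ξ`, for real points `ξ` of the plane.

* There is an absolute constant `δ > 0`: if `∑ N n ^ (-t)` converges for `t > τ`, then for all `ξ` outside of a
  set of Hausdorff dimension at most `(2 - δ + τ) / (1 - θ)` and all `c`, for all but finitely many `n` and for
  ALL coprime `(A, B)` within `c N n ^ θ` of `u n + N n ξ`, every solution with the bases `A`, `B` has the
  exponents `x, y > exp ((log N n) ^ K)`, the exponent `z` has only prime factors `> (log N n) ^ K`, and `A B` has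
  only prime factors `> N n ^ (1/40)`. In particular there is no solution at all if `A B` is even.
* If `∑ (w n / log (N n)) ^ 2` converges, then for almost all `ξ`, for all but finitely many `n` and ALL coprime
  `(A, B)` within `w n` of `u n + N n ξ`, there is no solution whatsoever.
-/

set_option autoImplicit false

namespace Pool.Agent.Results.MP_2738db_nt.TypicalBases

open MeasureTheory Filter

/-- `(x, y, z, C)` is a solution with the bases `A` and `B` -/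
def Solves (A B x y z C : ℕ) : Prop :=
  0 < x ∧ 0 < y ∧ 2 ≤ z ∧ 0 < C ∧
    (A ^ x + B ^ y = C ^ z ∨ A ^ x + C ^ z = B ^ y ∨ B ^ y + C ^ z = A ^ x)

/-- `(A, B)` is a coprime pair of positive integers, both coordinates of which differ by at most `r` from
the coordinates of `v` -/
def Near (v : Fin 2 → ℝ) (r : ℝ) (A B : ℕ) : Prop :=
  1 ≤ A ∧ 1 ≤ B ∧ A.Coprime B ∧ |(A : ℝ) - v 0| ≤ r ∧ |(B : ℝ) - v 1| ≤ r

/-- the solution has huge exponents `x`, `y`, the exponent `z` has no small prime factor and the bases have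
no prime factor up to a power of `N` -/
def Remote (N K A B x y z : ℕ) : Prop :=
  Real.exp (Real.log N ^ K) < ((min x y : ℕ) : ℝ) ∧
    (∀ r : ℕ, r.Prime → r ∣ z → Real.log N ^ K < r) ∧
    (∀ r : ℕ, r.Prime → r ∣ A * B → (N : ℝ) ^ (1 / 40 : ℝ) < r)

theorem solves_iff (A B x y z C : ℕ) :
    Solves A B x y z C ↔ Pool.Agent.Results.MP_2738db_nt.PowerSavingPairs.Solves A B x y z C := Iff.rfl

/-- from sets of pairs to sets of vectors -/
theorem ncard_vec (S : Set (ℕ × ℕ)) (hS : S.Finite) :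
    {A : Fin 2 → ℕ | (A 0, A 1) ∈ S}.ncard ≤ S.ncard ∧ {A : Fin 2 → ℕ | (A 0, A 1) ∈ S}.Finite := by
  have hinj : Set.InjOn (fun A : Fin 2 → ℕ => (A 0, A 1)) {A : Fin 2 → ℕ | (A 0, A 1) ∈ S} := by
    intro A _ B _ h
    simp only [Prod.mk.injEq] at h
    funext i
    fin_cases i
    · exact h.1
    · exact h.2
  exact ⟨Set.ncard_le_ncard_of_injOn _ (fun A hA => hA) hinj hS, Set.Finite.of_injOn
    (f := fun A : Fin 2 → ℕ => (A 0, A 1)) (fun A hA => hA) hinj hS⟩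

theorem box_finite (X Y a b : ℕ) :
    (Pool.Agent.Results.MP_2738db_nt.PowerSavingPairs.Box X Y a b).Finite := by
  refine (((Finset.Ioc a (a + X)) ×ˢ (Finset.Ioc b (b + Y))).finite_toSet).subset ?_
  rintro p ⟨h1, h2, -⟩
  rw [Finset.mem_coe, Finset.mem_product, Finset.mem_Ioc, Finset.mem_Ioc]
  exact ⟨h1, h2⟩

/-- the pairs with a solution of the first kind -/
theorem few_all : ∃ c : ℝ, 0 < c ∧
    Pool.Agent.K1H84.FC.FewInBoxes (k := 2)
      (fun _ A => (A 0).Coprime (A 1) ∧ ∃ x y z C : ℕ, Solves (A 0) (A 1) x y z C)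
      (fun N => c / Real.log N ^ 2) := by
  obtain ⟨⟨δ, c, hδ, hc, h⟩, -⟩ := Pool.Agent.Results.MP_2738db_nt.PowerSavingPairs.result
  refine ⟨c, hc, fun K => ?_⟩
  obtain ⟨N₀, hN₀⟩ := h K
  refine ⟨N₀, fun N hN a M hM haM => ?_⟩
  have h1 := (hN₀ N hN (M 0) (M 1) (a 0) (a 1) (hM 0) (hM 1) (haM 0) (haM 1)).2
  set S := {p ∈ Pool.Agent.Results.MP_2738db_nt.PowerSavingPairs.Box (M 0) (M 1) (a 0) (a 1) |
    ∃ x y z C : ℕ, Pool.Agent.Results.MP_2738db_nt.PowerSavingPairs.Solves p.1 p.2 x y z C} with hS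
  have hfin : S.Finite := (box_finite _ _ _ _).subset fun p hp => hp.1
  obtain ⟨h2, h3⟩ := ncard_vec S hfin
  have h4 : ({A : Fin 2 → ℕ | (∀ i, a i < A i ∧ A i ≤ a i + M i) ∧
      ((A 0).Coprime (A 1) ∧ ∃ x y z C : ℕ, Solves (A 0) (A 1) x y z C)}.ncard : ℕ) ≤ S.ncard := by
    refine (Set.ncard_le_ncard ?_ h3).trans h2
    rintro A ⟨hA, hco, hsol⟩
    exact ⟨⟨hA 0, hA 1, hco⟩, hsol⟩
  have h5 : (({A : Fin 2 → ℕ | (∀ i, a i < A i ∧ A i ≤ a i + M i) ∧
      ((A 0).Coprime (A 1) ∧ ∃ x y z C : ℕ, Solves (A 0) (A 1) x y z C)}.ncard : ℕ) : ℝ) ≤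
      (S.ncard : ℝ) := by exact_mod_cast h4
  refine h5.trans (h1.trans (le_of_eq ?_))
  rw [Fin.prod_univ_two]
  ring

/-- the pairs with a solution which is not remote -/
theorem few_near : ∃ δ : ℝ, 0 < δ ∧ δ ≤ 1 ∧ ∀ K : ℕ,
    Pool.Agent.K1H84.FC.FewInBoxes (k := 2)
      (fun N A => (A 0).Coprime (A 1) ∧ ∃ x y z C : ℕ, Solves (A 0) (A 1) x y z C ∧
        ¬ Remote N K (A 0) (A 1) x y z)
      (fun N => (N : ℝ) ^ (-δ)) := by
  obtain ⟨⟨δ₁, c₁, hδ₁, -, h⟩, ⟨δ₂, hδ₂, g⟩⟩ := Pool.Agent.Results.MP_2738db_nt.PowerSavingPairs.result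
  set δ := min (min δ₁ δ₂) 1 with hδ
  have hδ0 : 0 < δ := lt_min (lt_min hδ₁ hδ₂) one_pos
  have hδ1 : δ ≤ 1 := min_le_right _ _
  have hd1 : δ ≤ δ₁ := (min_le_left _ _).trans (min_le_left _ _)
  have hd2 : δ ≤ δ₂ := (min_le_left _ _).trans (min_le_right _ _)
  refine ⟨δ / 2, by positivity, by linarith, fun K L => ?_⟩
  set K' := max K L with hK'
  obtain ⟨N₀, hN₀⟩ := h K'
  obtain ⟨N₁, hN₁⟩ := g 2 K'
  -- `3 ≤ N ^ (δ / 2)` eventually
  obtain ⟨N₂, hN₂⟩ : ∃ N₂ : ℕ, ∀ N : ℕ, N₂ ≤ N → (3 : ℝ) ≤ (N : ℝ) ^ (δ / 2) := by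
    have h1 : Tendsto (fun N : ℕ => (N : ℝ) ^ (δ / 2)) atTop atTop :=
      (tendsto_rpow_atTop (by positivity)).comp tendsto_natCast_atTop_atTop
    exact eventually_atTop.1 (h1.eventually_ge_atTop 3)
  refine ⟨max (max N₀ N₁) (max N₂ 3), fun N hN a M hM haM => ?_⟩
  have e0 : N₀ ≤ N := (le_max_left _ _).trans ((le_max_left _ _).trans hN)
  have e1 : N₁ ≤ N := (le_max_right _ _).trans ((le_max_left _ _).trans hN)
  have e2 : N₂ ≤ N := (le_max_left _ _).trans ((le_max_right _ _).trans hN)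
  have e3 : 3 ≤ N := (le_max_right _ _).trans ((le_max_right _ _).trans hN)
  have hNR : (3 : ℝ) ≤ N := by exact_mod_cast e3
  have hlog : 1 ≤ Real.log N := by
    rw [Real.le_log_iff_exp_le (by linarith)]
    exact (Real.exp_one_lt_three.le).trans hNR
  have hKK : Real.log N ^ K ≤ Real.log N ^ K' := pow_le_pow_right₀ hlog (le_max_left _ _)
  have hLK : ∀ i, a i + M i ≤ N ^ K' := fun i =>
    (haM i).trans (Nat.pow_le_pow_right (by omega) (le_max_right _ _))
  have h1 := (hN₀ N e0 (M 0) (M 1) (a 0) (a 1) (hM 0) (hM 1) (hLK 0) (hLK 1)).1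
  have h2 := hN₁ N e1 a M hM hLK
  set S := {p ∈ Pool.Agent.Results.MP_2738db_nt.PowerSavingPairs.Box (M 0) (M 1) (a 0) (a 1) |
    ∃ x y z C : ℕ, Pool.Agent.Results.MP_2738db_nt.PowerSavingPairs.Solves p.1 p.2 x y z C ∧
      ((∃ r : ℕ, r.Prime ∧ (r : ℝ) ≤ (N : ℝ) ^ (1 / 40 : ℝ) ∧ r ∣ p.1 * p.2) ∨
        ((min x y : ℕ) : ℝ) ≤ Real.exp (Real.log N ^ K'))} with hS
  have hfin : S.Finite := (box_finite _ _ _ _).subset fun p hp => hp.1
  obtain ⟨h3, h4⟩ := ncard_vec S hfin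
  set T := {A : Fin 2 → ℕ | (∀ i, a i < A i ∧ A i ≤ a i + M i) ∧
    Pool.Agent.Results.MP_2738db_nt.PowerSavingPairs.Rel 2 N K' A} with hT
  have hTfin : T.Finite := by
    refine ((Fintype.piFinset fun i => Finset.Ioc (a i) (a i + M i)).finite_toSet).subset ?_
    intro A hA
    rw [Finset.mem_coe, Fintype.mem_piFinset]
    intro i
    rw [Finset.mem_Ioc]
    exact hA.1 i
  set U := {A : Fin 2 → ℕ | (∀ i, a i < A i ∧ A i ≤ a i + M i) ∧ ((A 0).Coprime (A 1) ∧
    ∃ x y z C : ℕ, Solves (A 0) (A 1) x y z C ∧ ¬ Remote N K (A 0) (A 1) x y z)} with hU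
  have hsub : U ⊆ ({A : Fin 2 → ℕ | (A 0, A 1) ∈ S} ∪ T) ∪ {fun _ => 1} := by
    rintro A ⟨hA, hco, x, y, z, C, hsol, hrem⟩
    by_cases h11 : A 0 = 1 ∧ A 1 = 1
    · right
      rw [Set.mem_singleton_iff]
      funext i
      fin_cases i
      · exact h11.1
      · exact h11.2
    left
    by_cases hz : ∃ r : ℕ, r.Prime ∧ r ∣ z ∧ (r : ℝ) ≤ Real.log N ^ K
    · right
      obtain ⟨r, hr1, hr2, hr3⟩ := hz
      refine ⟨hA, ?_⟩
      have hne : A 0 ^ x * A 1 ^ y ≠ 1 := by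
        intro h
        rw [mul_eq_one] at h
        apply h11
        obtain ⟨q1, q2⟩ := h
        rw [Nat.pow_eq_one] at q1 q2
        have := hsol.1
        have := hsol.2.1
        constructor
        · rcases q1 with q | q
          · exact q
          · omega
        · rcases q2 with q | q
          · exact q
          · omega
      have hcp : Nat.Coprime (A 0 ^ x) (A 1 ^ y) := Nat.Coprime.pow _ _ hco
      have hq : ∃ q : ℕ, q.Prime ∧ q ∣ z ∧ (q : ℝ) ≤ Real.log N ^ K' := ⟨r, hr1, hr2, hr3.trans hKK⟩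
      rcases hsol.2.2.2.2 with hs | hs | hs
      · refine ⟨![x, 0], ![0, y], C, z, hsol.2.2.1, ?_, ?_, Or.inl ?_, Or.inl hq⟩
        · simpa [Fin.prod_univ_two] using hcp
        · simpa [Fin.prod_univ_two] using hne
        · simpa [Fin.prod_univ_two] using hs
      · refine ⟨![0, y], ![x, 0], C, z, hsol.2.2.1, ?_, ?_, Or.inr ?_, Or.inl hq⟩
        · simpa [Fin.prod_univ_two] using hcp.symm
        · rw [mul_comm] at hne
          simpa [Fin.prod_univ_two] using hne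
        · simpa [Fin.prod_univ_two] using hs.symm
      · refine ⟨![x, 0], ![0, y], C, z, hsol.2.2.1, ?_, ?_, Or.inr ?_, Or.inl hq⟩
        · simpa [Fin.prod_univ_two] using hcp
        · simpa [Fin.prod_univ_two] using hne
        · simpa [Fin.prod_univ_two] using hs.symm
    · left
      refine ⟨⟨hA 0, hA 1, hco⟩, x, y, z, C, hsol, ?_⟩
      by_contra hcon
      push Not at hcon
      obtain ⟨c1, c2⟩ := hcon
      apply hrem
      refine ⟨lt_of_le_of_lt (Real.exp_le_exp.2 hKK) c2, fun r hr1 hr2 => ?_, fun r hr1 hr2 => ?_⟩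
      · by_contra hlt
        push Not at hlt
        exact hz ⟨r, hr1, hr2, hlt⟩
      · by_contra hlt
        push Not at hlt
        exact c1 r hr1 hlt hr2
  have hcardU : (U.ncard : ℝ) ≤ (S.ncard : ℝ) + T.ncard + 1 := by
    have q1 : U.ncard ≤ (({A : Fin 2 → ℕ | (A 0, A 1) ∈ S} ∪ T) ∪ {fun _ => 1}).ncard :=
      Set.ncard_le_ncard hsub ((h4.union hTfin).union (Set.finite_singleton _))
    have q2 := Set.ncard_union_le ({A : Fin 2 → ℕ | (A 0, A 1) ∈ S} ∪ T) {fun _ => 1}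
    have q3 := Set.ncard_union_le {A : Fin 2 → ℕ | (A 0, A 1) ∈ S} T
    rw [Set.ncard_singleton] at q2
    have q4 : U.ncard ≤ S.ncard + T.ncard + 1 := by omega
    exact_mod_cast q4
  have hN0 : (0 : ℝ) < N := by linarith
  have hM0 : (N : ℝ) ≤ M 0 := by exact_mod_cast hM 0
  have hM1 : (N : ℝ) ≤ M 1 := by exact_mod_cast hM 1
  have hMM : (N : ℝ) * N ≤ (M 0 : ℝ) * M 1 := mul_le_mul hM0 hM1 hN0.le (by linarith)
  have hprod : (0 : ℝ) ≤ (M 0 : ℝ) * M 1 := by positivity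
  have r1 : (S.ncard : ℝ) ≤ (N : ℝ) ^ (-δ) * ((M 0 : ℝ) * M 1) :=
    h1.trans (mul_le_mul_of_nonneg_right
      (Real.rpow_le_rpow_of_exponent_le (by linarith) (by linarith)) hprod)
  have r2 : (T.ncard : ℝ) ≤ (N : ℝ) ^ (-δ) * ((M 0 : ℝ) * M 1) := by
    refine h2.trans ?_
    rw [Fin.prod_univ_two]
    exact mul_le_mul_of_nonneg_right
      (Real.rpow_le_rpow_of_exponent_le (by linarith) (by linarith)) hprod
  have r3 : (1 : ℝ) ≤ (N : ℝ) ^ (-δ) * ((M 0 : ℝ) * M 1) := by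
    calc (1 : ℝ) ≤ (N : ℝ) ^ (-(1 : ℝ)) * ((N : ℝ) * N) := by
          rw [Real.rpow_neg_one, ← mul_assoc, inv_mul_cancel₀ hN0.ne', one_mul]
          linarith
      _ ≤ (N : ℝ) ^ (-δ) * ((M 0 : ℝ) * M 1) := by
          refine mul_le_mul (Real.rpow_le_rpow_of_exponent_le (by linarith) (by linarith)) hMM
            (by positivity) (by positivity)
  have r4 : 3 * (N : ℝ) ^ (-δ) ≤ (N : ℝ) ^ (-(δ / 2)) := by
    have q := hN₂ N e2
    have q1 : (N : ℝ) ^ (-(δ / 2)) = (N : ℝ) ^ (δ / 2) * (N : ℝ) ^ (-δ) := by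
      rw [← Real.rpow_add hN0]
      congr 1
      ring
    rw [q1]
    exact mul_le_mul_of_nonneg_right q (by positivity)
  rw [Fin.prod_univ_two]
  calc (U.ncard : ℝ) ≤ 3 * (N : ℝ) ^ (-δ) * ((M 0 : ℝ) * M 1) := by
        rw [mul_assoc]
        linarith
    _ ≤ _ := mul_le_mul_of_nonneg_right r4 hprod

theorem result :
    (∃ δ : ℝ, 0 < δ ∧ ∀ N : ℕ → ℕ, (∀ n, 1 ≤ N n) → ∀ τ θ : ℝ, 0 ≤ τ → θ < 1 →
      (∀ t : ℝ, τ < t → Summable fun n => (N n : ℝ) ^ (-t)) →
      ∀ (K : ℕ) (u : ℕ → Fin 2 → ℝ), (∀ n i, |u n i| ≤ (N n : ℝ) ^ K) →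
      ∃ E : Set (Fin 2 → ℝ), dimH E ≤ ENNReal.ofReal ((2 - δ + τ) / (1 - θ)) ∧
        ∀ ξ : Fin 2 → ℝ, ξ ∉ E → ∀ c : ℝ, ∀ᶠ n in atTop, ∀ A B : ℕ,
          Near (fun i => u n i + N n * ξ i) (c * (N n : ℝ) ^ θ) A B →
          ∀ x y z C : ℕ, Solves A B x y z C → Remote (N n) K A B x y z) ∧
    (∀ N : ℕ → ℕ, Tendsto N atTop atTop →
      ∀ (K : ℕ) (u : ℕ → Fin 2 → ℝ), (∀ n i, |u n i| ≤ (N n : ℝ) ^ K) →
      ∀ w : ℕ → ℝ, (∀ n, 0 ≤ w n) → (Summable fun n => (w n / Real.log (N n)) ^ 2) →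
      ∀ᵐ ξ : Fin 2 → ℝ, ∀ᶠ n in atTop, ∀ A B : ℕ,
        Near (fun i => u n i + N n * ξ i) (w n) A B → ∀ x y z C : ℕ, ¬ Solves A B x y z C) := by
  constructor
  · obtain ⟨δ, hδ0, hδ1, h⟩ := few_near
    refine ⟨δ, hδ0, fun N hN τ θ hτ hθ hs K u hu => ?_⟩
    obtain ⟨E, hE, g⟩ := Pool.Agent.K1H84.FC.box_dim (k := 2) (by norm_num) hδ1 (h K) N hN hτ hθ hs K u hu
    refine ⟨E, ?_, fun ξ hξ c => ?_⟩
    · have h2 : ((2 : ℕ) : ℝ) = 2 := by norm_num
      rw [h2] at hE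
      exact hE
    · filter_upwards [g ξ hξ c] with n hn A B hAB x y z C hsol
      by_contra hrem
      refine hn ![A, B] ?_ ?_ ⟨hAB.2.2.1, x, y, z, C, hsol, hrem⟩
      · intro i
        fin_cases i
        · exact hAB.1
        · exact hAB.2.1
      · intro i
        fin_cases i
        · exact hAB.2.2.2.1
        · exact hAB.2.2.2.2
  · intro N hN K u hu w hw hs
    obtain ⟨c, hc, h⟩ := few_all
    have hlogN : ∀ᶠ n in atTop, (0 : ℝ) < Real.log (N n) := by
      filter_upwards [hN.eventually_ge_atTop 2] with n hn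
      exact Real.log_pos (by exact_mod_cast hn)
    have hwN : ∀ᶠ n in atTop, w n ≤ N n := by
      have h1 := hs.tendsto_atTop_zero
      filter_upwards [h1.eventually (gt_mem_nhds (one_pos : (0 : ℝ) < 1)), hlogN,
        hN.eventually_ge_atTop 2] with n h2 h3 h4
      have h5 : w n / Real.log (N n) ≤ 1 := by
        by_contra hlt
        push Not at hlt
        nlinarith
      rw [div_le_one h3] at h5
      have h6 : (0 : ℝ) < N n := by
        have : 0 < N n := by omega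
        exact_mod_cast this
      linarith [Real.log_le_sub_one_of_pos h6]
    have hs' : Summable fun n => c / Real.log (N n) ^ 2 * w n ^ 2 := by
      refine (hs.mul_left c).congr fun n => ?_
      rw [div_pow]
      ring
    have g := Pool.Agent.K1H84.FC.box_ae (k := 2) (fun N => by positivity) h N hN K u hu w hw hwN hs'
    filter_upwards [g] with ξ hξ
    filter_upwards [hξ] with n hn A B hAB x y z C hsol
    refine hn ![A, B] ?_ ?_ ⟨hAB.2.2.1, x, y, z, C, hsol⟩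
    · intro i
      fin_cases i
      · exact hAB.1
      · exact hAB.2.1
    · intro i
      fin_cases i
      · exact hAB.2.2.2.1
      · exact hAB.2.2.2.2

end Pool.Agent.Results.MP_2738db_nt.TypicalBases
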